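import Pool.Agent.Run7.h383.PK.Integral

/-!
# MP_28d749_ag: Pink's conjecture for ALL BUT FINITELY MANY integral members of one-parameter families of
subvarieties of the powers of elliptic schemes with enough degenerate members

**The families.** As in the starting file `TropicalFamilies`: the base is the space of all
`s = (a, b, s_1, …, s_r) ∈ ℂ^(2+r)` with `4 a³ + 27 b² ≠ 0`, the fibre at `s` is the `q`-th power of the
elliptic curve `y² = x³ + a x + b` (`curve`), and `F` is an arbitrary finite system of polynomials in the
coordinates `(a, b, s, x(P_1), …, x(P_q))` (`Coord`, `point`) and `N` auxiliary coordinates with
coefficients in `ℚ̄[t]`. The member `X_t` (`MemberP`) consists of the points `(P_1, …, P_q)` of the fibres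
with all `P_l` different from the origin for which all equations, with the coefficients evaluated at
`t`, hold for some values of the auxiliary coordinates. So `(X_t)` is an arbitrary one-parameter family
of subvarieties stable under the signs of the `P_l` (minus the zero sections) or of images of
varieties, and by restriction of the base one gets the powers of any elliptic scheme.

**The condition.** Let `m` be an integer, the dimension of the `X_t`, and let `α` be a rational number.
The tropicalization at `α` is the set of the points `w` of `(ℚ ∪ {∞})^(2+r+q+N)` such that for every
polynomial of the system the minimum of the numbers `ord_α (coefficient) + β · w`, over the exponents `β`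
of its monomials, is attained at two different exponents or is infinite (`TropAt`, `orders`). Let `T` be
a set of coordinates of the base or abscissas, `ρ ≥ 0` and `M ≥ 2`. We say that `α` covers `(T, ρ)` modulo
`M` (`Covers`) if there are rational numbers `τ_i`, `i ∈ T`, such that for every point `w` of the
tropicalization at `α` with `w_i = τ_i` for `i ∈ T` there are a set `J` of more than `q - ρ` indices and a
rational number `μ` with `2 μ ≤ w(a)`, `3 μ ≤ w(b)` and `w(x_j) + 1/2 < μ` for `j ∈ J`, and such that the
denominators of the differences `w(x_i) - w(x_j)` for different `i, j ∈ J` are divisible by `M`
(`IndependentM`).

**Theorem.** Suppose that every `(T, ρ)` with `|T| + ρ = m + 1` is covered by two different elements of a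
finite set `D` of rational numbers, modulo some `M ≥ 3` and some `M' ≥ 2`, or by three different elements
modulo `2` (`Enough`). Then for every positive integer `s` the member `X_t` has no atypical intersection
with the algebraic subgroups of the fibres, for **all but finitely many** numbers `t ∈ ℤ[1/s]`, in
particular for all but finitely many integers `t`: for every `ρ` every irreducible constructible subset
of `X_t ∩ 𝒜^[≥ρ]` has dimension at most `m - ρ`, and the points of `X_t ∩ 𝒜^[≥ρ]` have transcendence degree
at most `m - ρ` over `ℚ` (`NoAtypicalP`). In particular `X_t ∩ 𝒜^[>m]` is empty, as in Pink's conjecture,
and (`ρ = 1`) no component of dimension `m` of `X_t` is contained in a strict group subscheme. The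
algebraic subgroups of the fibres are given up to torsion by relations with endomorphisms of the curve
as coefficients (`InSubgroup`, a definition of the starting file `RandomMultisections`).

In the starting file `TropicalFamilies` every `(T, ρ)` has to be covered by one `α ∈ D` (with differences
which are not integers), and the result is for all but `C √B` of the integers `t` with `|t| ≤ B`. Our
`PowerClasses` and `IntegralParameters` also need one `α` for every `(T, ρ)`; there the exceptions are
contained in finitely many classes `t = α + c y^M`, and there can be infinitely many of them. Here the
members themselves are treated, without a change of the parameter, and there are only finitely many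
exceptions: the condition on the number of the degenerate members is the one in Siegel's theorem (`t` is
an integral point of the projective line with the weights `∞` at `∞` and `M_i` at `α_i`, and the Euler
characteristic `2 - 1 - ∑ (1 - 1 / M_i)` is negative), and the statement has the form expected for
integral points.

Proof. If some prime number above a bound divides `t - α` to an order not divisible by `M` for one of the
`α` which cover `(T, ρ)` modulo `M`, for each `(T, ρ)`, then `X_t` has no atypical intersection: the
condition is stable under the multiplication of the orders of the coefficients by `k` if `M` does not
divide `k`. Otherwise `t - α = c y^M` and `t - β = c' z^(M')` for some `(T, ρ)`, with `c, c'` in a finite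
set and `y, z ∈ ℤ[1/s]`, or `t - α`, `t - β`, `t - γ` are squares up to such factors. This holds for
finitely many `t ∈ ℤ[1/s]` only, by the theorem of Siegel and LeVeque (unit equations over number
fields).
-/

set_option autoImplicit false

namespace Pool.Agent.Results.MP_28d749_ag.IntegralMembers

open MvPolynomial Pool.Agent.R424.PT Run7.h383.PK
open Pool.Agent.Results.MP_28d749_ag.RandomMultisections (curve)

/-- **Pink's conjecture for all but finitely many integral members** of one-parameter families of
subvarieties of the powers of elliptic schemes with enough degenerate members. -/
theorem result (κ : Type) [Finite κ] (r q N m : ℕ)
    (F : κ → MvPolynomial (Coord r q ⊕ Fin N) (Polynomial (algebraicClosure ℚ ℂ)))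
    (D : Finset ℚ) (hD : Enough m F D) (s : ℕ) (hs : s ≠ 0) :
    {t : ℚ | (∃ (k : ℕ) (a : ℤ), (s : ℚ) ^ k * t = a) ∧
      ¬ NoAtypicalP m (MemberP F (t : ℂ) : ∀ s : Fin 2 ⊕ Fin r → ℂ,
        (Fin q → (curve (s (Sum.inl 0)) (s (Sum.inl 1))).Point) → Prop)}.Finite :=
  members m F D hD s hs

end Pool.Agent.Results.MP_28d749_ag.IntegralMembers
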