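import Pool.Agent.Run7.h383.PK.Final

/-!
# MP_28d749_ag: Pink's conjecture for all but finitely many members of one-parameter families of
subvarieties of the powers of elliptic schemes with almost integral parameters

**The families.** As in the starting file `TropicalFamilies`: the base is the space of all
`s = (a, b, s_1, …, s_r) ∈ ℂ^(2+r)` with `4 a³ + 27 b² ≠ 0`, the fibre at `s` is the `q`-th power of the
elliptic curve `y² = x³ + a x + b` (`curve`), and `F` is an arbitrary finite system of polynomials in the
coordinates `(a, b, s, x(P_1), …, x(P_q))` (`Coord`, `point`) and `N` auxiliary coordinates with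
coefficients in `ℚ̄[t]`. The member `X_t` (`MemberP`) consists of the points `(P_1, …, P_q)` of the fibres
with all `P_l` different from the origin for which all equations, with the coefficients evaluated at
`t`, hold for some values of the auxiliary coordinates.

**The condition** (`GenericM`). Let `D` be a finite set of rational numbers, `m` an integer, the
dimension of the `X_t`, and `M ≥ 2`. For `α ∈ D` the tropicalization at `α` is the set of the points `w`
of `(ℚ ∪ {∞})^(2+r+q+N)` such that for every polynomial of the system the minimum of the numbers
`ord_α (coefficient) + β · w`, over the exponents `β` of its monomials, is attained at two different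
exponents or is infinite (`TropAt`, `orders`). The condition is: for every set `T` of coordinates of the
base or abscissas and every `ρ ≥ 0` with `|T| + ρ = m + 1` there are an `α ∈ D` and rational numbers `τ_i`,
`i ∈ T`, such that for every point `w` of the tropicalization at `α` with `w_i = τ_i` for `i ∈ T` there are
a set `J` of more than `q - ρ` indices and a rational number `μ` with `2 μ ≤ w(a)`, `3 μ ≤ w(b)` and
`w(x_j) + 1/2 < μ` for `j ∈ J`, and such that the denominators of the differences `w(x_i) - w(x_j)` for
different `i, j ∈ J` are divisible by `M` (`IndependentM`).

**Theorem.** Suppose that the condition is satisfied. Then the member `X_t` has no atypical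
intersection with the algebraic subgroups of the fibres (`NoAtypicalP`) for all but finitely many of
the following parameters.
1. `t = g(y)` for the rational numbers `y` whose denominators divide a power of a given integer `s`, for
   any rational function `g = P / Q` over `ℚ` such that for every `α ∈ D` the function `g - α` has at least
   two complex zeros, at least three if `M = 2`, of multiplicities prime to `M` (`Ramified`). For
   example `t = b + c y^j` for `j ≥ 2`, or `j ≥ 3` if `M = 2`, with `b ∉ D` and `c ≠ 0`.
2. All elements `t` of a finitely generated subgroup of `ℚ^*`, if `0 ∉ D`; for example `t = 2^n`.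
3. All elements `t` of an infinite orbit `x₀, φ(x₀), φ(φ(x₀)), …` of a polynomial `φ ∈ ℚ[X]` (all but
   finitely many indices), if some iterate of `φ` is a polynomial as in 1.

No atypical intersection: for every `ρ` every irreducible constructible subset of `X_t ∩ 𝒜^[≥ρ]` has
dimension at most `m - ρ`, and the points of `X_t ∩ 𝒜^[≥ρ]` have transcendence degree at most `m - ρ` over
`ℚ`. In particular `X_t ∩ 𝒜^[>m]` is empty, as in Pink's conjecture, and (`ρ = 1`) no component of
dimension `m` of `X_t` is contained in a strict group subscheme. The algebraic subgroups of the fibres
are given up to torsion by relations with endomorphisms of the curve as coefficients (`InSubgroup`).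

The theorem `TropicalFamilies` of the starting tree is for all `t = u / v` up to few exceptions, and
gives nothing for such sparse sets of parameters: it needs a large prime number which divides `t - α`
exactly once, and it is not known in general whether there is one for `t = P(y)` with `P` of large
degree, or for `t = 2^n`. Here it suffices that the order of `t - α` at some large prime number is not
divisible by `M`. Otherwise the numbers `g(y) - α`, and hence `y - b` for the zeros `b` of `g - α` of
multiplicities prime to `M`, are `M`-th powers up to units of a ring of `S`-integers of a number field,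
which holds for only finitely many `y` by the theorem of Siegel and its generalizations (from the
starting tree: unit equations over number fields).
-/

set_option autoImplicit false

namespace Pool.Agent.Results.MP_28d749_ag.IntegralParameters

open MvPolynomial Pool.Agent.R424.PT Run7.h383.PK
open Pool.Agent.Results.MP_28d749_ag.RandomMultisections (curve)

/-- **Pink's conjecture for all but finitely many members with almost integral parameters**: values
of rational functions at almost integral numbers, elements of finitely generated multiplicative
groups, elements of infinite orbits of polynomials. -/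
theorem result (κ : Type) [Finite κ] (r q N m M : ℕ) (hM : 2 ≤ M)
    (F : κ → MvPolynomial (Coord r q ⊕ Fin N) (Polynomial (algebraicClosure ℚ ℂ)))
    (D : Finset ℚ) (hgen : GenericM M m (fun j => (F j).support) (orders F D)) :
    (∀ P Q : Polynomial ℚ, IsCoprime P Q → Ramified M D P Q → ∀ s : ℕ, s ≠ 0 →
      {y : ℚ | (∃ (k : ℕ) (a : ℤ), (s : ℚ) ^ k * y = a) ∧
        ¬ NoAtypicalP m (MemberP F ((P.eval y / Q.eval y : ℚ) : ℂ) : ∀ s : Fin 2 ⊕ Fin r → ℂ,
          (Fin q → (curve (s (Sum.inl 0)) (s (Sum.inl 1))).Point) → Prop)}.Finite) ∧
    ((0 : ℚ) ∉ D → ∀ Γ : Subgroup ℚˣ, Γ.FG →
      {t : ℚˣ | t ∈ Γ ∧ ¬ NoAtypicalP m (MemberP F ((t : ℚ) : ℂ) : ∀ s : Fin 2 ⊕ Fin r → ℂ,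
          (Fin q → (curve (s (Sum.inl 0)) (s (Sum.inl 1))).Point) → Prop)}.Finite) ∧
    ∀ (φ : Polynomial ℚ) (j : ℕ), Ramified M D ((φ.comp)^[j] Polynomial.X) 1 → ∀ x₀ : ℚ,
      (Function.Injective fun n : ℕ => (fun x => φ.eval x)^[n] x₀) →
      {n : ℕ | ¬ NoAtypicalP m (MemberP F (((fun x => φ.eval x)^[n] x₀ : ℚ) : ℂ) :
        ∀ s : Fin 2 ⊕ Fin r → ℂ,
          (Fin q → (curve (s (Sum.inl 0)) (s (Sum.inl 1))).Point) → Prop)}.Finite :=
  ⟨fun P Q hcop hPQ s hs => values F D M m hM hgen P Q hcop hPQ s hs,
    fun hD Γ hΓ => groups F D M m hM hgen hD Γ hΓ,
    fun φ j hφ x₀ hx => orbits F D M m hM hgen φ j hφ x₀ hx⟩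

end Pool.Agent.Results.MP_28d749_ag.IntegralParameters
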