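import Pool.Agent.Run7.h383.PK.Pow

/-!
# MP_28d749_ag: Pink's conjecture for all rational members of one-parameter families of subvarieties
of the powers of elliptic schemes outside finitely many classes of `M`-th powers

**The families.** As in the starting file `TropicalFamilies`: the base is the space of all
`s = (a, b, s_1, …, s_r) ∈ ℂ^(2+r)` with `4 a³ + 27 b² ≠ 0`, the fibre at `s` is the `q`-th power of the
elliptic curve `y² = x³ + a x + b` (`curve`), and `F` is an arbitrary finite system of polynomials in the
coordinates `(a, b, s, x(P_1), …, x(P_q))` (`Coord`, `point`) and `N` auxiliary coordinates with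
coefficients in `ℚ̄[t]`. The member `X_t` (`MemberP`) consists of the points `(P_1, …, P_q)` of the fibres
with all `P_l` different from the origin for which all equations, with the coefficients evaluated at
`t`, hold for some values of the auxiliary coordinates. So `(X_t)` is an arbitrary one-parameter family
of subvarieties stable under the signs of the `P_l` (minus the zero sections) or of images of
varieties, and by restriction of the base one gets the powers of any elliptic scheme.

**The condition** (`GenericM`). Let `D` be a finite set of rational numbers, `m` an integer, the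
dimension of the `X_t`, and `M ≥ 2`. For `α ∈ D` the tropicalization at `α` is the set of the points `w`
of `(ℚ ∪ {∞})^(2+r+q+N)` such that for every polynomial of the system the minimum of the numbers
`ord_α (coefficient) + β · w`, over the exponents `β` of its monomials, is attained at two different
exponents or is infinite (`TropAt`, `orders`). The condition is: for every set `T` of coordinates of the
base or abscissas and every `ρ ≥ 0` with `|T| + ρ = m + 1` there are an `α ∈ D` and rational numbers `τ_i`,
`i ∈ T`, such that for every point `w` of the tropicalization at `α` with `w_i = τ_i` for `i ∈ T` there are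
a set `J` of more than `q - ρ` indices and a rational number `μ` with `2 μ ≤ w(a)`, `3 μ ≤ w(b)` and
`w(x_j) + 1/2 < μ` for `j ∈ J`, and such that **the denominators of the differences `w(x_i) - w(x_j)` for
different `i, j ∈ J` are divisible by `M`** (`IndependentM`). (In `TropicalFamilies` the differences have
to be not integers. For the equations of the type `A x(P_i)^(M e) = …` the numbers `τ_i` can be chosen
such that also the condition with `M` is satisfied.)

**Theorem.** Suppose that the condition is satisfied.
1. There is a finite set `𝒞` of nonzero integers such that the member `X_t` has no atypical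
   intersection (see below) for **every** rational number `t` outside of the classes
   `t - α = c y^M / (b v)`, with `α = a / b ∈ D`, `c ∈ 𝒞`, an integer `y`, and `v` the denominator of `t`.
2. There is a constant `C` such that for all `B ≥ 1` and all `1 ≤ v ≤ B` this holds for `t = u / v` for
   all but at most `C B^(1/M)` of the integers `u` with `|u| ≤ B` prime to `v`.

No atypical intersection (`NoAtypicalP`): for every `ρ` every irreducible constructible subset of
`X_t ∩ 𝒜^[≥ρ]` has dimension at most `m - ρ`, and the points of `X_t ∩ 𝒜^[≥ρ]` have transcendence degree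
at most `m - ρ` over `ℚ`. In particular `X_t ∩ 𝒜^[>m]` is empty, as in Pink's conjecture, and (`ρ = 1`) no
component of dimension `m` of `X_t` is contained in a strict group subscheme. The algebraic subgroups
of the fibres are given up to torsion by relations with endomorphisms of the curve as coefficients
(`InSubgroup`, a definition of the starting file `RandomMultisections`).

In `TropicalFamilies` there is no information on a single `t`, and the number of the exceptions is
bounded by `C √B`, because `t - α` had to be divisible exactly once by a large prime number. Here it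
suffices that some large prime number divides `t - α` to an order which is **not divisible by** `M`. The
reason is that the condition with `M` is stable under the multiplication of all the orders of the
coefficients by an integer `k` which is not divisible by `M`: the tropicalization is multiplied by `k`,
and `k` times a number with a denominator divisible by `M` is not an integer (`generic_sc`). At a prime
`p` which divides `t - α` to the order `k` the coefficients have `k` times the order at `α`, so that the
local criterion of the starting tree applies to the multiplied orders. The remaining `t` are in the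
classes.
-/

set_option autoImplicit false

namespace Pool.Agent.Results.MP_28d749_ag.PowerClasses

open MvPolynomial Pool.Agent.R424.PT Run7.h383.PK
open Pool.Agent.Results.MP_28d749_ag.RandomMultisections (curve)

/-- **Pink's conjecture for all rational members of one-parameter families outside finitely many
classes of `M`-th powers.** -/
theorem result (κ : Type) [Finite κ] (r q N m M : ℕ) (hM : 2 ≤ M)
    (F : κ → MvPolynomial (Coord r q ⊕ Fin N) (Polynomial (algebraicClosure ℚ ℂ)))
    (D : Finset ℚ) (hgen : GenericM M m (fun j => (F j).support) (orders F D)) :
    (∃ 𝒞 : Finset ℤ, (∀ c ∈ 𝒞, c ≠ 0) ∧ ∀ t : ℚ,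
      (∀ α ∈ D, ∀ c ∈ 𝒞, ∀ y : ℤ, t.num * α.den - α.num * t.den ≠ c * y ^ M) →
      NoAtypicalP m (MemberP F (t : ℂ) : ∀ s : Fin 2 ⊕ Fin r → ℂ,
        (Fin q → (curve (s (Sum.inl 0)) (s (Sum.inl 1))).Point) → Prop)) ∧
    ∃ C : ℝ, ∀ B : ℕ, 1 ≤ B → ∀ v : ℕ, 1 ≤ v → v ≤ B →
      ({u : ℤ | |u| ≤ B ∧ IsCoprime u (v : ℤ) ∧ ¬ NoAtypicalP m (MemberP F ((u : ℂ) / v) :
        ∀ s : Fin 2 ⊕ Fin r → ℂ, (Fin q → (curve (s (Sum.inl 0)) (s (Sum.inl 1))).Point) →
          Prop)}.ncard : ℝ) ≤ C * (B : ℝ) ^ ((1 : ℝ) / M) := by
  obtain ⟨P₀, hP₀⟩ := goodM F D M m hgen
  have h0 : ∀ c ∈ coefs P₀ M, c ≠ 0 := fun c hc => (Finset.mem_filter.1 hc).2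
  have hmain : ∀ t : ℚ, (∀ α ∈ D, ∀ c ∈ coefs P₀ M, ∀ y : ℤ,
      t.num * α.den - α.num * t.den ≠ c * y ^ M) →
      NoAtypicalP m (MemberP F (t : ℂ) : ∀ s : Fin 2 ⊕ Fin r → ℂ,
        (Fin q → (curve (s (Sum.inl 0)) (s (Sum.inl 1))).Point) → Prop) := by
    intro t ht
    refine hP₀ t fun α hα => ?_
    by_contra hbad
    obtain ⟨c, hc, y, hy⟩ := power_class hM _ hbad
    exact ht α hα c hc y hy
  refine ⟨⟨coefs P₀ M, h0, hmain⟩, ?_⟩
  obtain ⟨C, hC⟩ := count_classes D M hM (coefs P₀ M) h0
  refine ⟨C, fun B hB v hv hvB => hC B hB v hvB _ ?_⟩
  rintro u ⟨hu, hcop, hbad⟩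
  refine ⟨hu, ?_⟩
  by_contra hcon
  apply hbad
  have hv0 : (v : ℤ) ≠ 0 := by exact_mod_cast (by omega : v ≠ 0)
  have hnum : ((u : ℚ) / v).num = u := by
    have := Rat.num_div_eq_of_coprime (a := u) (b := (v : ℤ)) (by omega)
      (Int.isCoprime_iff_nat_coprime.1 hcop)
    exact_mod_cast this
  have hden : ((u : ℚ) / v).den = v := by
    have := Rat.den_div_eq_of_coprime (a := u) (b := (v : ℤ)) (by omega)
      (Int.isCoprime_iff_nat_coprime.1 hcop)
    exact_mod_cast this
  have h1 := hmain ((u : ℚ) / v) fun α hα c hc y hy => hcon ⟨α, hα, c, hc, y, by
    rw [hnum, hden] at hy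
    exact hy⟩
  push_cast at h1
  exact h1

end Pool.Agent.Results.MP_28d749_ag.PowerClasses
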