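import Pool.Agent.Run7.h972.AW.Base
import Pool.Agent.Results.MP_28d749_ag.RandomOrbits

/-!
# MP_28d749_ag: Pink's conjecture along random orbits of affine maps of the parameters

**The families** are those of the starting result `ManyParameters`. The base is the space of all
`s = (a, b, s_1, …, s_r) ∈ ℂ^(2+r)` with `4 a³ + 27 b² ≠ 0`, the fibre at `s` is the `q`-th power of the
elliptic curve `y² = x³ + a x + b` (`curve`). A family is a finite system of polynomials in the
coordinates `(a, b, s_1, …, s_r, x(P_1), …, x(P_q))` and `N` auxiliary coordinates with the exponents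
`supp j` and the coefficients `c j β ∈ ℤ[t_1, …, t_k][t_0]` (`k` is called `s` in the theorem); the member
`X_t` (`OnX`) is the set of the points `(P_1, …, P_q)`, with all `P_l` different from the origin, for which
there is a `y ∈ ℂ^N` with which all the equations with the coefficients evaluated at `t` hold.

**The condition** is the one of `ManyParameters` for hypersurfaces `h_1, …, h_M` of degree one in `t_0`
(`HasOrd`, `GenericP`: the tropicalizations of the family along these hypersurfaces); the coefficients of
`h_l`, also the leading one, may be any polynomials in `t_1, …, t_k`.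

**Random orbits.** The starting result `RandomOrbits` is about the random orbit of one vector `v ≠ 0` under
matrices of determinant one which generate `SL_ν(ℤ/q)`, `|ν| ≥ 2`, for all `q` prime to some `q₀`. Here the
maps are affine and need not be invertible, `|ν| = 1` (families with one parameter) is allowed, and there is
one set of times for all starting vectors. Let `x ↦ A_j x + b_j`, `j ≤ m`, be a finite family of affine maps of
`ℤ^ν` (`AffineWalk`) which for all `q` prime to some `M` are permutations of `(ℤ/q)^ν` and generate a
transitive group. The determinants of the `A_j` are arbitrary nonzero integers. For instance, for `ν` a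
point: any finite family of maps `x ↦ a_j x + b_j` of `ℤ`, `a_j ≠ 0`, two of which do not commute
(`Run7.h972.AW.line_walk`), such as `x ↦ 10 x + d` for the `d` in a set of at least two digits (the orbit of
`0` are the initial segments of a random decimal number with digits in this set) or `x ↦ 2 x + 1`,
`x ↦ 3 x`; in general, `x ↦ A x + d` (digits in a matrix base), or random walks on `ℤ^ν` (`A_j = 1`), of which
polynomially many vectors are visited. For independent and uniformly distributed indices `w 0, w 1, …`
let `c_0 = v`, `c_(n+1) = A_(w n) c_n + b_(w n)` (`aorb`).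

**Theorem.** For almost every `w` there is ONE set `E` of times of density zero such that for ALL starting
vectors `v` and ALL such families, with all numbers `k`, `r`, `q`, `N`, all systems of equations and all
injective choices of `1 + k` coordinates of the orbit as parameters, the member `X_t` of the parameters `t`
at the time `n` has no atypical intersection with algebraic subgroups of the fibres (`NoAtypicalP`), for all
but finitely many `n` outside `E`.

The proof: the local criterion of `ManyParameters` is satisfied outside pronull sets of parameter vectors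
(starting library, `Pool.Agent.N383.ORB`); by the ergodic theorem for walks on finite groups
(`Pool.Agent.N24.RW`), applied to the group of affine permutations of `(ℤ/q)^ν`, such sets are visited by the
random orbits only at times of density zero (`Run7.h972.AW`), and there are only countably many pairs of
coprime polynomials which decide.
-/

set_option autoImplicit false

namespace Pool.Agent.Results.MP_28d749_ag.RandomAffineOrbits

open MeasureTheory
open Pool.Agent.N24.RW (words crit clo)
open Pool.Agent.N676.OR (DensityZero)
open Pool.Agent.N383.ORB (Dt Gd pronull_one local_crit PinkAt)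
open Pool.Agent.R424.MP Pool.Agent.R424.PT
open Pool.Agent.Results.MP_28d749_ag.RandomMultisections (curve)
open Run7.h972.AW

/-- One set of times for all pairs of polynomials. -/
theorem engine {ν : Type} [Fintype ν] [DecidableEq ν] (W : AffineWalk ν) :
    ∀ᵐ w ∂(words W.m), ∃ E : Set ℕ, DensityZero E ∧ ∀ (v : ν → ℤ) (d : Dt ν) (D : ℕ),
      {n : ℕ | n ∉ E ∧ ¬ Gd d.h d.G D (fun i => aorb W v w n (d.j i))}.Finite := by
  have h1 : ∀ (d : Dt ν) (D : ℕ),
      Pool.Agent.N24.RW.ProNull {t : ν → ℤ | ¬ Gd d.h d.G D (fun i => t (d.j i))} := by
    intro d D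
    have h3 := (clo (Fin (d.s + 1))).2.2.2.2 ν d.j d.j.injective _
      (pronull_one crit clo d.h d.G d.deg d.cop D)
    exact h3
  have h2 := one_set W (κ := Dt ν × ℕ)
    (fun x => {t : ν → ℤ | ¬ Gd x.1.h x.1.G x.2 (fun i => t (x.1.j i))}) (fun x => h1 x.1 x.2)
  filter_upwards [h2] with w hw
  obtain ⟨E, hE, h3⟩ := hw
  exact ⟨E, hE, fun v d D => h3 v (d, D)⟩

theorem result (ν : Type) [Fintype ν] [DecidableEq ν] (W : AffineWalk ν) :
    ∀ᵐ w ∂(words W.m), ∃ E : Set ℕ, DensityZero E ∧
      ∀ (v : ν → ℤ) (s r q N m M : ℕ) (f : Fin (s + 1) → ν), Function.Injective f →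
        ∀ (κ : Type) [Finite κ] (supp : κ → Finset ((Coord r q ⊕ Fin N) →₀ ℕ))
          (c : κ → ((Coord r q ⊕ Fin N) →₀ ℕ) → Polynomial (MvPolynomial (Fin s) ℤ))
          (h : Fin M → Polynomial (MvPolynomial (Fin s) ℤ)), (∀ l, (h l).natDegree = 1) →
          ∀ e : Fin M → κ → ((Coord r q ⊕ Fin N) →₀ ℕ) → ℕ,
            (∀ l j, ∀ β ∈ supp j, HasOrd (h l) (c j β) (e l j β)) → GenericP m supp e →
            {n : ℕ | n ∉ E ∧ ¬ NoAtypicalP m (OnX supp (fun j β =>
                ((ev (aorb W v w n (f 0)) (fun i => aorb W v w n (f i.succ)) (c j β) : ℤ) : ℂ)) :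
              ∀ x : Fin 2 ⊕ Fin r → ℂ,
                (Fin q → (curve (x (Sum.inl 0)) (x (Sum.inl 1))).Point) → Prop)}.Finite := by
  filter_upwards [engine W] with w hw
  obtain ⟨E, hE, hfin⟩ := hw
  refine ⟨E, hE, ?_⟩
  intro v s r q N m M f hf κ _ supp c h hdeg e he hgen
  obtain ⟨G, hcop, hG⟩ := local_crit supp c h e he hgen
  have h1 : (⋃ l : Fin M, {n : ℕ | n ∉ E ∧ ¬ Gd (h l) (G l) 0
      (fun i => aorb W v w n (f i))}).Finite :=
    Set.finite_iUnion fun l => hfin v ⟨s, ⟨f, hf⟩, h l, G l, hdeg l, hcop l⟩ 0
  refine h1.subset ?_
  rintro n ⟨hn, hn'⟩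
  by_contra hcon
  apply hn'
  refine hG (fun i => aorb W v w n (f i)) fun l => ?_
  by_contra hl
  exact hcon (Set.mem_iUnion.2 ⟨l, hn, hl⟩)

end Pool.Agent.Results.MP_28d749_ag.RandomAffineOrbits
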